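import Mathlib
import Pool.Agent.Q172.CycC

open Finset MvPolynomial

namespace Pool.Agent.Results.MP_f86430_an.CyclicUpToTwo

/-- A family of Taylor coefficients `a J`, `J = (j₁, j₂)`, belongs to the space `𝒟_β(𝔻²)`:
`∑ |a J|² (|J| + 2)^β < ∞`. -/
def MemD (β : ℝ) (a : (Fin 2 →₀ ℕ) → ℂ) : Prop :=
  Summable fun J => ‖a J‖ ^ 2 * ((J 0 : ℝ) + (J 1 : ℝ) + 2) ^ β

/-- The squared norm `‖a‖_β² = ∑ |a J|² (|J| + 2)^β` of `𝒟_β(𝔻²)`. -/
noncomputable def normSq (β : ℝ) (a : (Fin 2 →₀ ℕ) → ℂ) : ℝ :=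
  ∑' J, ‖a J‖ ^ 2 * ((J 0 : ℝ) + (J 1 : ℝ) + 2) ^ β

/-- A polynomial `F` in two variables is cyclic in `𝒟_β(𝔻²)`: its polynomial multiples are dense. -/
def Cyclic (β : ℝ) (F : MvPolynomial (Fin 2) ℂ) : Prop :=
  ∀ g : (Fin 2 →₀ ℕ) → ℂ, MemD β g → ∀ ε > 0, ∃ p : MvPolynomial (Fin 2) ℂ,
    MemD β (fun J => g J - (p * F).coeff J) ∧ normSq β (fun J => g J - (p * F).coeff J) < ε

open Pool.Agent.Q172.Cyc

theorem normSq_poly_le (β : ℝ) (hβ : β ≤ 2) (P : MvPolynomial (Fin 2) ℂ) :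
    MemD β (fun J => P.coeff J) ∧ normSq β (fun J => P.coeff J) ≤ NS P := by
  have h0 : ∀ J ∉ P.support, ‖P.coeff J‖ ^ 2 * ((J 0 : ℝ) + (J 1 : ℝ) + 2) ^ β = 0 := by
    intro J hJ
    rw [MvPolynomial.notMem_support_iff.1 hJ]; simp
  refine ⟨summable_of_ne_finset_zero h0, ?_⟩
  unfold normSq NS
  rw [tsum_eq_sum h0]
  refine Finset.sum_le_sum fun J _ => ?_
  have hw := wt_pos J
  have : ((J 0 : ℝ) + (J 1 : ℝ) + 2) ^ β ≤ wt J ^ 2 := by
    have h1 : wt J ^ β ≤ wt J ^ (2:ℝ) := Real.rpow_le_rpow_of_exponent_le (by linarith) hβ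
    rw [Real.rpow_two] at h1
    exact h1
  gcongr

/-- The function `1 - (z₁ + z₂)/2` is cyclic in `𝒟_β(𝔻²)` for every `β ≤ 2`. -/
theorem result (β : ℝ) (hβ : β ≤ 2) :
    Cyclic β (1 - MvPolynomial.C (1/2) * (MvPolynomial.X 0 + MvPolynomial.X 1)) := by
  classical
  intro g hg ε hε
  -- truncate g
  set W : (Fin 2 →₀ ℕ) → ℝ := fun J => ((J 0 : ℝ) + (J 1 : ℝ) + 2) ^ β with hW
  have hWpos : ∀ J, 0 ≤ W J := fun J => by simp only [hW]; positivity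
  have hg' : Summable fun J => ‖g J‖ ^ 2 * W J := hg
  obtain ⟨s, hs⟩ := (hg'.hasSum.eventually (lt_mem_nhds (a := ∑' J, ‖g J‖ ^ 2 * W J - ε / 4)
    (by linarith))).exists
  simp only at hs
  set G : MvPolynomial (Fin 2) ℂ := ∑ J ∈ s, monomial J (g J) with hG
  have hGc : ∀ J, G.coeff J = if J ∈ s then g J else 0 := by
    intro J
    rw [hG, coeff_sum]
    simp only [coeff_monomial]
    rw [Finset.sum_ite_eq' s J]
  obtain ⟨p, hp⟩ := InCl_all G (ε / 8) (by positivity)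
  have hf : f = 1 - MvPolynomial.C (1/2) * (MvPolynomial.X 0 + MvPolynomial.X 1) := rfl
  rw [← hf]
  obtain ⟨hm, hn⟩ := normSq_poly_le β hβ (G - p * f)
  have hm' : Summable fun J => ‖(G - p * f).coeff J‖ ^ 2 * W J := hm
  have hn' : ∑' J, ‖(G - p * f).coeff J‖ ^ 2 * W J ≤ NS (G - p * f) := hn
  -- first difference
  have hsum1 : Summable fun J => ‖g J - G.coeff J‖ ^ 2 * W J := by
    refine Summable.of_nonneg_of_le (fun J => mul_nonneg (sq_nonneg _) (hWpos J)) (fun J => ?_) hg'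
    rw [hGc]
    split_ifs
    · simp only [sub_self, norm_zero]
      have := mul_nonneg (sq_nonneg ‖g J‖) (hWpos J)
      simpa using this
    · simp
  have htail : ∑' J, ‖g J - G.coeff J‖ ^ 2 * W J < ε / 4 := by
    have e : ∑' J, ‖g J‖ ^ 2 * W J = ∑ J ∈ s, ‖g J‖ ^ 2 * W J + ∑' J, ‖g J - G.coeff J‖ ^ 2 * W J := by
      have e1 : ∑ J ∈ s, ‖g J‖ ^ 2 * W J = ∑' J, (if J ∈ s then ‖g J‖ ^ 2 * W J else 0) := by
        rw [tsum_eq_sum (s := s) (fun J hJ => by rw [if_neg hJ])]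
        exact Finset.sum_congr rfl fun J hJ => by rw [if_pos hJ]
      rw [e1, ← Summable.tsum_add (summable_of_ne_finset_zero (s := s)
        (fun J hJ => by rw [if_neg hJ])) hsum1]
      refine tsum_congr fun J => ?_
      rw [hGc]
      split_ifs <;> simp
    linarith
  have hbound : ∀ J, ‖g J - (p * f).coeff J‖ ^ 2 * W J ≤
      2 * (‖g J - G.coeff J‖ ^ 2 * W J) + 2 * (‖(G - p * f).coeff J‖ ^ 2 * W J) := by
    intro J
    have h1 : g J - (p * f).coeff J = (g J - G.coeff J) + (G - p * f).coeff J := by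
      rw [coeff_sub]; ring
    rw [h1]
    have h2 := norm_add_le (g J - G.coeff J) ((G - p * f).coeff J)
    have h3 : ‖(g J - G.coeff J) + (G - p * f).coeff J‖ ^ 2 ≤
        2 * ‖g J - G.coeff J‖ ^ 2 + 2 * ‖(G - p * f).coeff J‖ ^ 2 := by
      nlinarith [sq_nonneg (‖g J - G.coeff J‖ - ‖(G - p * f).coeff J‖),
        norm_nonneg ((g J - G.coeff J) + (G - p * f).coeff J),
        norm_nonneg (g J - G.coeff J), norm_nonneg ((G - p * f).coeff J)]
    have h4 := hWpos J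
    nlinarith
  have hsum2 : Summable fun J => 2 * (‖g J - G.coeff J‖ ^ 2 * W J) +
      2 * (‖(G - p * f).coeff J‖ ^ 2 * W J) := (hsum1.mul_left 2).add (hm'.mul_left 2)
  have hsum3 : Summable fun J => ‖g J - (p * f).coeff J‖ ^ 2 * W J :=
    Summable.of_nonneg_of_le (fun J => mul_nonneg (sq_nonneg _) (hWpos J)) hbound hsum2
  refine ⟨p, hsum3, ?_⟩
  have h5 : ∑' J, ‖g J - (p * f).coeff J‖ ^ 2 * W J ≤
      2 * ∑' J, ‖g J - G.coeff J‖ ^ 2 * W J + 2 * ∑' J, ‖(G - p * f).coeff J‖ ^ 2 * W J := by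
    rw [← tsum_mul_left, ← tsum_mul_left, ← Summable.tsum_add (hsum1.mul_left 2) (hm'.mul_left 2)]
    exact Summable.tsum_le_tsum hbound hsum3 hsum2
  show ∑' J, ‖g J - (p * f).coeff J‖ ^ 2 * W J < ε
  linarith

end Pool.Agent.Results.MP_f86430_an.CyclicUpToTwo
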